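import Mathlib

set_option autoImplicit false

namespace Pool.Agent.Helper95.A

theorem P2_prime (J S N : ℕ) (hS : 2 ≤ S) (hN : 0 < N) (h : N < S ^ J) :
    ∃ s, s.Prime ∧ S ≤ s ∧ s ≤ 2 ^ J * S ∧ ¬ s ∣ N := by
  by_contra hcon
  push Not at hcon
  have hb : ∀ j : ℕ, ∃ p : ℕ, p.Prime ∧ 2 ^ j * S < p ∧ p ≤ 2 ^ (j + 1) * S := by
    intro j
    have hne : 2 ^ j * S ≠ 0 := by positivity
    obtain ⟨p, hp, h1, h2⟩ := Nat.exists_prime_lt_and_le_two_mul (2 ^ j * S) hne
    exact ⟨p, hp, h1, by rw [pow_succ]; linarith⟩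
  choose p hp h1 h2 using hb
  have hmono : StrictMono p :=
    strictMono_nat_of_lt_succ (fun j => lt_of_le_of_lt (h2 j) (h1 (j + 1)))
  have hle : ∀ j, S ≤ p j := by
    intro j
    have h3 : 1 * S ≤ 2 ^ j * S := Nat.mul_le_mul_right S (Nat.one_le_two_pow)
    have := h1 j
    omega
  have hdv : ∀ j ∈ Finset.range J, p j ∣ N := by
    intro j hj
    refine hcon (p j) (hp j) (hle j) ?_
    have hj' : j + 1 ≤ J := Finset.mem_range.1 hj
    exact (h2 j).trans (Nat.mul_le_mul_right S (Nat.pow_le_pow_right (by norm_num) hj'))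
  have hprod : ∏ j ∈ Finset.range J, p j ∣ N := by
    have := Finset.prod_primes_dvd (s := (Finset.range J).image p) N
      (by
        intro a ha
        obtain ⟨j, _, rfl⟩ := Finset.mem_image.1 ha
        exact (hp j).prime)
      (by
        intro a ha
        obtain ⟨j, hj, rfl⟩ := Finset.mem_image.1 ha
        exact hdv j hj)
    rwa [Finset.prod_image (fun a _ b _ hab => hmono.injective hab)] at this
  have hpow : S ^ J ≤ ∏ j ∈ Finset.range J, p j := by
    calc S ^ J = ∏ _j ∈ Finset.range J, S := by simp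
      _ ≤ ∏ j ∈ Finset.range J, p j := Finset.prod_le_prod' (fun j _ => hle j)
  have := Nat.le_of_dvd hN hprod
  omega

open Equiv

theorem P3_card {n M s : ℕ} (hs : 2 ≤ s) (hM : 2 ≤ M) (hne : M ≠ s) (h1 : M + s ≤ n)
    (h2 : n ≤ M + s + 1) :
    (Finset.univ.filter fun σ : Perm (Fin n) => σ.cycleType = {M, s}).card * (M * s)
      = n.factorial := by
  have h := Equiv.Perm.card_of_cycleType_mul_eq (Fin n) {M, s}
  rw [if_pos] at h
  · have e1 : (Fintype.card (Fin n) - Multiset.sum {M, s}).factorial = 1 := by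
      simp only [Fintype.card_fin, Multiset.insert_eq_cons, Multiset.sum_cons,
        Multiset.sum_singleton]
      have : n - (M + s) ≤ 1 := by omega
      interval_cases (n - (M + s)) <;> rfl
    have e2 : Multiset.prod ({M, s} : Multiset ℕ) = M * s := by simp
    have e3 : (∏ k ∈ ({M, s} : Multiset ℕ).toFinset, (Multiset.count k {M, s}).factorial) = 1 := by
      apply Finset.prod_eq_one
      intro k _
      have : Multiset.count k ({M, s} : Multiset ℕ) ≤ 1 := by
        have hnd : (({M, s} : Multiset ℕ)).Nodup := by simp [hne]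
        exact Multiset.nodup_iff_count_le_one.1 hnd k
      interval_cases (Multiset.count k ({M, s} : Multiset ℕ)) <;> rfl
    rw [e1, e2, e3, Fintype.card_fin, one_mul, mul_one] at h
    exact h
  · refine ⟨?_, ?_⟩
    · simp only [Fintype.card_fin, Multiset.insert_eq_cons, Multiset.sum_cons,
        Multiset.sum_singleton]
      exact h1
    · intro a ha
      simp only [Multiset.insert_eq_cons, Multiset.mem_cons, Multiset.mem_singleton] at ha
      rcases ha with rfl | rfl <;> assumption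

theorem P3_pow {n M s : ℕ} (hs : 2 ≤ s) (hM : 2 ≤ M) (hc : Nat.Coprime M s) (σ : Perm (Fin n))
    (h : σ.cycleType = {M, s}) : (σ ^ M).IsCycle ∧ (σ ^ M).support.card = s := by
  have h0 : σ.cycleFactorsFinset.val.map (Finset.card ∘ Perm.support) = M ::ₘ {s} := h
  obtain ⟨c, hcm, hcard, _⟩ := (Multiset.map_eq_cons (Finset.card ∘ Perm.support)
    σ.cycleFactorsFinset.val {s} M).2 h0
  have hcf : c ∈ σ.cycleFactorsFinset := hcm
  have hcc : c.IsCycle := (Perm.mem_cycleFactorsFinset_iff.1 hcf).1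
  have hdis : Perm.Disjoint (σ * c⁻¹) c := Perm.disjoint_mul_inv_of_mem_cycleFactorsFinset hcf
  have hσ : σ * c⁻¹ * c = σ := by group
  have hcard' : c.support.card = M := hcard
  have ht : (σ * c⁻¹).cycleType = {s} := by
    have h3 := hdis.cycleType_mul
    rw [hσ, h, hcc.cycleType, hcard'] at h3
    have h4 : ({M, s} : Multiset ℕ) = {s} + {M} := by
      rw [Multiset.singleton_add]
      exact Multiset.pair_comm M s
    rw [h4] at h3
    exact (add_right_cancel h3).symm
  have hcy : (σ * c⁻¹).IsCycle := by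
    rw [← Perm.card_cycleType_eq_one, ht, Multiset.card_singleton]
  have hcs : (σ * c⁻¹).support.card = s := by
    rw [← Perm.sum_cycleType, ht, Multiset.sum_singleton]
  have hpow : σ ^ M = (σ * c⁻¹) ^ M := by
    conv_lhs => rw [← hσ]
    rw [hdis.commute.mul_pow]
    have : c ^ M = 1 := by
      rw [← hcard', ← hcc.orderOf]
      exact pow_orderOf_eq_one c
    rw [this, mul_one]
  have hco : Nat.Coprime M (orderOf (σ * c⁻¹)) := by rw [hcy.orderOf, hcs]; exact hc
  rw [hpow]
  refine ⟨?_, ?_⟩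
  · exact hcy.pow_iff.2 hco
  · rw [Perm.support_pow_coprime hco]
    exact hcs

theorem P5_conj {n s : ℕ} (c c' : Perm (Fin n)) (hc : c.IsCycle) (hcs : c.support.card = s)
    (hc' : c'.IsCycle) (hcs' : c'.support.card = s) :
    ∃ a b : Fin s ↪ Fin n, ∀ h : Perm (Fin n), (∀ i, h (a i) = b i) → h * c * h⁻¹ = c' := by
  have ho : orderOf c = s := by rw [hc.orderOf, hcs]
  have ho' : orderOf c' = s := by rw [hc'.orderOf, hcs']
  have hs : 0 < s := by rw [← ho]; exact orderOf_pos c
  obtain ⟨p, hp, hp'⟩ := hc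
  obtain ⟨q, hq, hq'⟩ := hc'
  have hc : c.IsCycle := ⟨p, hp, hp'⟩
  have hc' : c'.IsCycle := ⟨q, hq, hq'⟩
  have inj : ∀ (d : Perm (Fin n)) (r : Fin n), d.IsCycle → orderOf d = s → d r ≠ r →
      Function.Injective (fun i : Fin s => (d ^ (i : ℕ)) r) := by
    intro d r hd hod hr i j hij
    have h1 : d ^ (i : ℕ) = d ^ (j : ℕ) := hd.pow_eq_pow_iff.2 ⟨r, hr, hij⟩
    have h2 := pow_injOn_Iio_orderOf (x := d) (by simp [hod]) (by simp [hod]) h1
    exact Fin.ext h2
  have sur : ∀ (d : Perm (Fin n)) (r : Fin n), d.IsCycle → orderOf d = s → d r ≠ r →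
      ∀ y, d y ≠ y → ∃ i : Fin s, (d ^ (i : ℕ)) r = y := by
    intro d r hd hod hr y hy
    obtain ⟨i, hi⟩ := hd.exists_pow_eq hr hy
    refine ⟨⟨i % s, Nat.mod_lt _ hs⟩, ?_⟩
    simp only
    rw [← hod, pow_mod_orderOf]
    exact hi
  refine ⟨⟨_, inj c p hc ho hp⟩, ⟨_, inj c' q hc' ho' hq⟩, ?_⟩
  intro h hh
  simp only [Function.Embedding.coeFn_mk] at hh
  have key : ∀ x, h (c x) = c' (h x) := by
    intro x
    by_cases hx : c x = x
    · rw [hx]
      by_contra hne
      obtain ⟨i, hi⟩ := sur c' q hc' ho' hq (h x) (fun h1 => hne h1.symm)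
      rw [← hh i] at hi
      have hxi := h.injective hi
      have : c ((c ^ (i : ℕ)) p) = (c ^ (i : ℕ)) p := by rw [hxi]; exact hx
      rw [← Perm.mul_apply, ← pow_succ', pow_succ, Perm.mul_apply] at this
      exact hp ((c ^ (i : ℕ)).injective this)
    · obtain ⟨i, rfl⟩ := sur c p hc ho hp x hx
      rw [hh i]
      have e1 : c ((c ^ (i : ℕ)) p) = (c ^ ((i : ℕ) + 1)) p := by rw [pow_succ', Perm.mul_apply]
      have e2 : c' ((c' ^ (i : ℕ)) q) = (c' ^ ((i : ℕ) + 1)) q := by
        rw [pow_succ', Perm.mul_apply]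
      rw [e1, e2]
      by_cases hi : (i : ℕ) + 1 < s
      · exact hh ⟨(i : ℕ) + 1, hi⟩
      · have hi' : (i : ℕ) + 1 = s := by omega
        have h0 := hh ⟨0, hs⟩
        simp only [pow_zero, Perm.one_apply] at h0
        rw [hi']
        conv_lhs => rw [← ho, pow_orderOf_eq_one]
        conv_rhs => rw [← ho', pow_orderOf_eq_one]
        simpa using h0
  ext y
  have := key (h⁻¹ y)
  simp only [Perm.mul_apply]
  rw [this]
  simp

end Pool.Agent.Helper95.A
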